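import Pool.Agent.U293.FD.Ring

/-!
# Automorphisms of `R[x, y]` and lattices of rank two

`C` is any class of groups with the closure properties `ClosedE C` and `AcylF C` which contains the
solvable groups, such that for the torsion-free groups `G` in `C` all finitely generated projective
`ℤ[G]`-modules are stably free. All this is published for the class of the groups whose wreath products
with finite groups satisfy the K-theoretic Farrell-Jones conjecture with coefficients (`AcylF` is a
theorem of Knopf, solvable groups are due to Wegner, stable freeness is in the problem file); this class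
also contains all `GL_n(ℚ)` (Rüping).

`LatC C D` means, for a domain `D` with field of fractions `K`: for each finitely generated `D`-submodule
`L` of `K²` which spans `K²` the group `{g ∈ GL₂(K) : g L = L}` is in `C`.

`Good C R` means, for a commutative ring `R`: for each minimal prime ideal `P` of `R` the domain `R/P`
has characteristic zero and satisfies `LatC`.

(1) If `Good C R`, `τ` is a set of variables and the commutative ring `S` embeds in `R[τ]`, then the
group of all automorphisms of `S[x, y]` over `S` is in `C`; in particular each torsion-free group of such
automorphisms satisfies Q1.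

(2) `LatC` holds for a domain if it holds for a larger domain; it passes to polynomial rings in finitely
many variables; for a principal ideal domain `D` it means that `GL₂(D)` is in `C`.

(3) Let `k` be a field with all `GL_n(k)` in `C`. `LatC` holds for each finitely generated domain `D`
over `k` with a degree function such that for all `n` the elements of degree at most `n` are in a
finite-dimensional subspace.

(4) `Good C A` holds for each commutative algebra `A` which is algebraic over a field `F` of
characteristic zero with all `GL_n(F)` in `C`; nilpotent elements and zero divisors are allowed.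

Outline of the proof. (1) reduces to finitely generated `R`, then to finitely many domains `D` (the
automorphisms trivial modulo a nilpotent ideal form a solvable group). The group of automorphisms of
`D[x, y]` acts on the tree of Jung's theorem over the field of fractions `K`; the action of finitely
generated subgroups is acylindrical, the stabilizers of the vertices of triangular type are solvable, and
a stabilizer of affine type acts on the lattice `(W ∩ D[x, y]) / D` of rank two with commutative kernel,
`W` the space of the polynomials of degree at most one in a system of coordinates over `K`. (2) Let `L`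
be a lattice over `Q[t]`, `k` the field of fractions of `Q`. Over `k[t]` the lattice becomes free, and
`t ↦ 0` maps the group of `L` to the group of a lattice over `Q`, so it is in `C` by the specialization
theorem of helper709 (action on the tree of `GL₂(k(t))`, library U709). (3) The group acts on the tree of
the valuation given by the degree; an element which fixes a vertex has entries of bounded degree, so it
is determined by its action on `L / J ^ m L`.
-/

set_option autoImplicit false

namespace Pool.Agent.Results.MP_551055_al.AutomorphismsOverAffineDomains

open Pool.Agent.Y110.FJ (ClosedE)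
open Pool.Agent.N509.TX (AcylF)
open Pool.Agent.U293.FD (LatC Good)
open Pool.Agent.U709 (IsDegree)

/-- the group of all automorphisms of the `R`-algebra `R[x, y]` -/
abbrev AutPlane (R : Type) [CommRing R] : Type :=
  MvPolynomial (Fin 2) R ≃ₐ[R] MvPolynomial (Fin 2) R

/-- all finitely generated projective `ℤ[G]`-modules are stably free -/
def AllStablyFree (G : Type) [Group G] : Prop :=
  ∀ (P : Type) [AddCommGroup P] [Module (MonoidAlgebra ℤ G) P],
    Module.Finite (MonoidAlgebra ℤ G) P → Module.Projective (MonoidAlgebra ℤ G) P →
    ∃ n m : ℕ, Nonempty ((P × (Fin n → MonoidAlgebra ℤ G)) ≃ₗ[MonoidAlgebra ℤ G]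
      (Fin m → MonoidAlgebra ℤ G))

/-- `H` is in `C`, and Q1 holds for all torsion-free groups which embed in `H` -/
def Holds (C : ∀ (G : Type) [Group G], Prop) (H : Type) [Group H] : Prop :=
  C H ∧ ∀ (G : Type) [Group G] (f : G →* H), Function.Injective f →
    (∀ g : G, IsOfFinOrder g → g = 1) → AllStablyFree G

/-- Let `C` be a class of groups with the closure properties `ClosedE C` and `AcylF C` which contains
the solvable groups, such that Q1 holds for the torsion-free groups in `C`. (1) If `Good C R` and the
ring `S` embeds in `R[τ]`, then `AutPlane S` is in `C` and Q1 holds for its torsion-free subgroups.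
(2) Closure properties of `LatC`. (3) `LatC` for finitely generated domains with a degree function with
finite-dimensional pieces. (4) `Good` for algebraic algebras over fields of characteristic zero. -/
theorem result (C : ∀ (G : Type) [Group G], Prop) (hC : ClosedE C) (hA : AcylF C)
    (hS : ∀ (G : Type) [Group G], Group.IsSolvable G → C G)
    (hQ : ∀ (G : Type) [Group G], C G → (∀ g : G, IsOfFinOrder g → g = 1) → AllStablyFree G) :
    (∀ (R : Type) [CommRing R], Good C R → ∀ (τ S : Type) [CommRing S]
      (f : S →+* MvPolynomial τ R), Function.Injective f → Holds C (AutPlane S)) ∧
    ((∀ (D D' : Type) [CommRing D] [IsDomain D] [CommRing D'] [IsDomain D'] (f : D →+* D'),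
        Function.Injective f → LatC C D' → LatC C D) ∧
      (∀ (D : Type) [CommRing D] [IsDomain D], LatC C D → ∀ m : ℕ,
        LatC C (MvPolynomial (Fin m) D)) ∧
      ∀ (D : Type) [CommRing D] [IsDomain D] [IsPrincipalIdealRing D],
        LatC C D ↔ C (Matrix.GeneralLinearGroup (Fin 2) D)) ∧
    (∀ (k : Type) [Field k], (∀ n : ℕ, C (Matrix.GeneralLinearGroup (Fin n) k)) →
      ∀ (D : Type) [CommRing D] [IsDomain D] [Algebra k D] [Algebra.FiniteType k D] (δ : D → ℕ),
        IsDegree δ → (∀ n : ℕ, ∃ W : Submodule k D, Module.Finite k W ∧
          ∀ r, r ≠ 0 → δ r ≤ n → r ∈ W) → LatC C D) ∧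
    ∀ (F : Type) [Field F] [CharZero F], (∀ n : ℕ, C (Matrix.GeneralLinearGroup (Fin n) F)) →
      ∀ (A : Type) [CommRing A] [Algebra F A] [Algebra.IsAlgebraic F A], Good C A := by
  have key : ∀ (H : Type) [Group H], C H → Holds C H := fun H _ h =>
    ⟨h, fun G _ f hf hG => hQ G (hC.base.of_injective _ _ f hf h) hG⟩
  refine ⟨fun R _ hR τ S _ f hf => key _ (hC.base.of_injective _ _ (U293.EP.bc (σ := Fin 2) f)
    (U293.EP.bc_injective hf) (U293.FD.main_ring hC hA hS R hR τ)),
    ⟨fun D D' _ _ _ _ f hf h => U293.FD.LatC_sub hC f hf h,
      fun D _ _ h m => U293.FD.LatC_mvFin hC hS h m,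
      fun D _ _ _ => ⟨fun h => U293.FD.LatC_GL hC h, fun h => U293.FD.LatC_pid hC D h⟩⟩,
    fun k _ hk D _ _ _ _ δ hδ h => U293.FD.LatC_fin hC hS hk hδ h,
    fun F _ _ hF A _ _ _ => U293.FD.Good_alg hC hF A⟩

end Pool.Agent.Results.MP_551055_al.AutomorphismsOverAffineDomains
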