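import Pool.Agent.U731.SG.IntMod

set_option autoImplicit false
set_option linter.unusedSectionVars false
set_option linter.style.haveILetI false

/-! Projective modules over the integral group ring of a torsion-free group and spectra in short
intervals.

The support span of a square matrix over `ℤG` is at most `s` if the matrix is supported, up to
identities on the diagonal, in a hermitian complex matrix whose nonzero coefficients, except those of
the identity on the diagonal, have absolute value at least one and whose spectrum on `ℓ²` lies in an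
interval of length `s`; for instance a hermitian integer matrix with spectrum in such an interval. A
projective module `P` such that `P` plus a free module is presented by a square matrix of support span
at most `3 √2` (bound included) is stably free; if the span is less than `4`, then `P` plus this free
module is free. For every larger bound, all finitely presented modules over all integral group rings are
presented in this way by matrices with coefficients `0`, `1`, `-1`. -/

namespace Pool.Agent.Results.MP_551055_al.SpanPresentations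

open ComplexConjugate Matrix

/-- The values of `⟨xS, x⟩` on the unit vectors `x` of `ℓ²(G)^n` with finite support `T` lie in an
interval `[a, a + s]`; for hermitian `S` this says that the spectrum of right multiplication by `S`
lies in it. -/
def SpanLE {G : Type} [Group G] {n : ℕ} (S : Matrix (Fin n) (Fin n) (MonoidAlgebra ℂ G))
    (s : ℝ) : Prop :=
  ∃ a : ℝ, ∀ (T : Finset (Fin n × G)) (x : Fin n × G → ℂ),
    a * ∑ p ∈ T, ‖x p‖ ^ 2
      ≤ (∑ p ∈ T, ∑ q ∈ T, x p * (S p.1 q.1).coeff (p.2⁻¹ * q.2) * conj (x q)).re ∧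
    (∑ p ∈ T, ∑ q ∈ T, x p * (S p.1 q.1).coeff (p.2⁻¹ * q.2) * conj (x q)).re
      ≤ (a + s) * ∑ p ∈ T, ‖x p‖ ^ 2

/-- The support of `M` is contained in the support of a hermitian complex matrix `S` and the
identities on the diagonal; the nonzero coefficients of `S`, except those of the identity on the
diagonal, have absolute value at least one, and the spectrum of `S` lies in an interval of length
`s`. -/
def SupportSpanLE {G : Type} [Group G] {n : ℕ}
    (M : Matrix (Fin n) (Fin n) (MonoidAlgebra ℤ G)) (s : ℝ) : Prop :=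
  ∃ S : Matrix (Fin n) (Fin n) (MonoidAlgebra ℂ G),
    (∀ i j g, (S j i).coeff g⁻¹ = conj ((S i j).coeff g)) ∧
    (∀ i j g, (S i j).coeff g ≠ 0 → (i = j ∧ g = 1) ∨ 1 ≤ ‖(S i j).coeff g‖) ∧
    (∀ i j g, (M i j).coeff g ≠ 0 → (i = j ∧ g = 1) ∨ (S i j).coeff g ≠ 0) ∧ SpanLE S s

/-- The module `(ℤG)^m ⊕ P` is isomorphic to the cokernel of the square matrix `M`, that is, `(ℤG)^n`
modulo the rows of `M`. -/
def StablyPresents {G : Type} [Group G] {n : ℕ} (P : Type) [AddCommGroup P]
    [Module (MonoidAlgebra ℤ G) P] (m : ℕ) (M : Matrix (Fin n) (Fin n) (MonoidAlgebra ℤ G)) : Prop :=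
  Nonempty (((Fin m → MonoidAlgebra ℤ G) × P) ≃ₗ[MonoidAlgebra ℤ G]
    ((Fin n → MonoidAlgebra ℤ G) ⧸ LinearMap.range M.vecMulLinear))

/-- `P` is stably free. -/
def StablyFree (G : Type) [Group G] (P : Type) [AddCommGroup P]
    [Module (MonoidAlgebra ℤ G) P] : Prop :=
  ∃ k l : ℕ, Nonempty ((P × (Fin k → MonoidAlgebra ℤ G)) ≃ₗ[MonoidAlgebra ℤ G]
    (Fin l → MonoidAlgebra ℤ G))

/-- Let `G` be torsion-free.
1. Let `P` be a projective `ℤG`-module such that `(ℤG)^m ⊕ P` is presented by a square matrix of
support span at most `3 √2`. Then `P` is stably free; if the support span is less than `4`, then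
`(ℤG)^m ⊕ P` is free.
2. The row space of an idempotent matrix over `ℤG` of support span at most `3 √2` is stably free, and
free if the support span is less than `4`.
3. Let `s > 3 √2`. For every group `G` and each finitely presented `ℤG`-module `P` some
`(ℤG)^m ⊕ P` is presented by a square matrix with coefficients `0`, `1`, `-1` and support span at most
`s`. Hence all finitely generated projective `ℤG`-modules are stably free if those are which have such
a presentation. -/
theorem result :
    (∀ (G : Type) [Group G], (∀ g : G, IsOfFinOrder g → g = 1) →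
      (∀ (P : Type) [AddCommGroup P] [Module (MonoidAlgebra ℤ G) P],
        Module.Projective (MonoidAlgebra ℤ G) P →
        ∀ (m n : ℕ) (M : Matrix (Fin n) (Fin n) (MonoidAlgebra ℤ G)) (s : ℝ),
          StablyPresents P m M → SupportSpanLE M s →
          (s ^ 2 ≤ 18 → StablyFree G P) ∧
          (s < 4 → Module.Free (MonoidAlgebra ℤ G) ((Fin m → MonoidAlgebra ℤ G) × P))) ∧
      ∀ (n : ℕ) (A : Matrix (Fin n) (Fin n) (MonoidAlgebra ℤ G)) (s : ℝ),
        A * A = A → SupportSpanLE A s →
        (s ^ 2 ≤ 18 → StablyFree G (LinearMap.range A.vecMulLinear)) ∧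
        (s < 4 → Module.Free (MonoidAlgebra ℤ G) (LinearMap.range A.vecMulLinear))) ∧
    ∀ s : ℝ, 0 < s → 18 < s ^ 2 → ∀ (G : Type) [Group G],
      (∀ (P : Type) [AddCommGroup P] [Module (MonoidAlgebra ℤ G) P],
        Module.FinitePresentation (MonoidAlgebra ℤ G) P →
        ∃ (m n : ℕ) (M : Matrix (Fin n) (Fin n) (MonoidAlgebra ℤ G)), StablyPresents P m M ∧
          SupportSpanLE M s ∧
          ∀ i j g, (M i j).coeff g = 0 ∨ (M i j).coeff g = 1 ∨ (M i j).coeff g = -1) ∧
      ((∀ (P : Type) [AddCommGroup P] [Module (MonoidAlgebra ℤ G) P],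
          Module.Projective (MonoidAlgebra ℤ G) P →
          (∃ (m n : ℕ) (M : Matrix (Fin n) (Fin n) (MonoidAlgebra ℤ G)), StablyPresents P m M ∧
            SupportSpanLE M s ∧
            ∀ i j g, (M i j).coeff g = 0 ∨ (M i j).coeff g = 1 ∨ (M i j).coeff g = -1) →
          StablyFree G P) →
        ∀ (P : Type) [AddCommGroup P] [Module (MonoidAlgebra ℤ G) P],
          Module.Finite (MonoidAlgebra ℤ G) P → Module.Projective (MonoidAlgebra ℤ G) P →
          StablyFree G P) := by
  have hst1 : ∀ (G : Type) [Group G] (P : Type) [AddCommGroup P] [Module (MonoidAlgebra ℤ G) P]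
      (m : ℕ), StablyFree G ((Fin m → MonoidAlgebra ℤ G) × P) → StablyFree G P := by
    rintro G _ P _ _ m ⟨k, l, ⟨e⟩⟩
    refine ⟨m + k, l, ⟨?_⟩⟩
    have e1 : (Fin (m + k) → MonoidAlgebra ℤ G) ≃ₗ[MonoidAlgebra ℤ G]
        ((Fin m → MonoidAlgebra ℤ G) × (Fin k → MonoidAlgebra ℤ G)) :=
      (LinearEquiv.funCongrLeft (MonoidAlgebra ℤ G) (MonoidAlgebra ℤ G) finSumFinEquiv).trans
        (LinearEquiv.sumArrowLequivProdArrow _ _ _ _)
    have e2 : (P × (Fin (m + k) → MonoidAlgebra ℤ G)) ≃ₗ[MonoidAlgebra ℤ G]
        (((Fin m → MonoidAlgebra ℤ G) × P) × (Fin k → MonoidAlgebra ℤ G)) :=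
      ((LinearEquiv.refl _ P).prodCongr e1).trans
        ((LinearEquiv.prodAssoc (MonoidAlgebra ℤ G) P (Fin m → MonoidAlgebra ℤ G)
          (Fin k → MonoidAlgebra ℤ G)).symm.trans
          ((LinearEquiv.prodComm (MonoidAlgebra ℤ G) P (Fin m → MonoidAlgebra ℤ G)).prodCongr
            (LinearEquiv.refl _ _)))
    exact e2.trans e
  have hpres : ∀ s : ℝ, 0 < s → 18 < s ^ 2 → ∀ (G : Type) [Group G]
      (P : Type) [AddCommGroup P] [Module (MonoidAlgebra ℤ G) P],
        Module.FinitePresentation (MonoidAlgebra ℤ G) P →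
        ∃ (m n : ℕ) (M : Matrix (Fin n) (Fin n) (MonoidAlgebra ℤ G)), StablyPresents P m M ∧
          SupportSpanLE M s ∧
          ∀ i j g, (M i j).coeff g = 0 ∨ (M i j).coeff g = 1 ∨ (M i j).coeff g = -1 := by
    intro s hs0 hs G _ P _ _ hP
    obtain ⟨m, n, M, h4, h5, h6⟩ := U731.SG.sym_pres N510.CT.gens_int _ hP s hs0 hs
    refine ⟨m, n, M, h6, h5, fun i j g => ?_⟩
    by_cases h : (M i j).coeff g = 0
    · exact Or.inl h
    · exact Or.inr (h4 i j g h)
  refine ⟨fun G _ htf => ?_, fun s hs0 hs G _ => ⟨fun P _ _ hP => hpres s hs0 hs G P hP, ?_⟩⟩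
  · have htf' : ∀ g : G, ∀ k : ℕ, 0 < k → g ^ k = 1 → g = 1 := fun g k hk h =>
      htf g (isOfFinOrder_iff_pow_eq_one.2 ⟨k, hk, h⟩)
    refine ⟨?_, ?_⟩
    · rintro P _ _ hP m n M s ⟨φ⟩ hM
      constructor
      · intro hs
        obtain ⟨ρ, u, C, hC, hst⟩ := U731.SG.smallSpan_vc s hs M hM
        exact hst1 G P m (U731.SG.stablyFree_of_struct G htf' _ inferInstance n M φ ρ u C hC hst)
      · intro hs
        obtain ⟨ρ, u, C, hC, hst⟩ := U731.SG.smallSpan_fin s hs M hM
        exact U731.SG.free_of_fin_struct ℤ G htf' _ inferInstance n M φ ρ u C hC hst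
    · intro n A s hA hM
      obtain ⟨e⟩ := U731.SG.range_coker A hA
      constructor
      · intro hs
        obtain ⟨ρ, u, C, hC, hst⟩ := U731.SG.smallSpan_vc s hs A hM
        exact U731.SG.stablyFree_of_struct G htf' _ (U731.SG.projective_range A hA) n (1 - A) e
          ρ u C hC (U731.SG.struct_one_sub A ρ u C hst)
      · intro hs
        obtain ⟨ρ, u, C, hC, hst⟩ := U731.SG.smallSpan_fin s hs A hM
        exact U731.SG.free_of_fin_struct ℤ G htf' _ (U731.SG.projective_range A hA) n (1 - A) e
          ρ u C hC (U731.SG.struct_one_sub A ρ u C hst)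
  · intro h P _ _ hfin hP
    haveI : Module.FinitePresentation (MonoidAlgebra ℤ G) P :=
      Module.finitePresentation_of_projective _ _
    exact h P hP (hpres s hs0 hs G P inferInstance)

end Pool.Agent.Results.MP_551055_al.SpanPresentations
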