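import Pool.Agent.U181.TG.K0
import Pool.Agent.U181.TG.Fin

/-!
# Test groups and a compactness principle for the stable freeness of projective modules

For every coefficient ring `R`, in particular for `ℤ`, the stable freeness of the finitely generated
projective modules over the group rings of all torsion-free groups is equivalent to its case for one
countable torsion-free group, and to a finitary statement about groups without small torsion. The
equivalence with the finitary statement holds for the limits of any class of groups, for example of the
finite groups.
-/

set_option autoImplicit false

namespace Pool.Agent.Results.MP_551055_al.TestGroups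

open Pool.Agent.U181.TG

/-- Let `R` be a ring, for example `ℤ`. (1) The following are equivalent: all finitely generated
projective modules over `R[Γ]` are stably free, for all torsion-free groups `Γ`; the same for the largest
torsion-free quotients `Γ` of the finitely presented groups; the same for the restricted direct product
`TestGroup` of these quotients, which is a countable torsion-free group; for every square matrix `E`
over the group ring of a free group of finite rank there are finitely many splittings (pairs of
matrices `X`, `Y`) and a number `N` such that whenever `G` is a group without elements of order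
`2, ..., N` (but perhaps with elements of larger finite order) and a homomorphism to `G` makes `E`
idempotent, then one of the splittings satisfies `X Y = diag(E, 1)`, `Y X = 1` in `G`, and so proves that
`E` defines a stably free module.
(2) For every class `C` of groups, all finitely generated projective modules are stably free for all
limits of groups in `C` without small torsion exactly if this finitary statement holds for the groups
`G` in `C`; these limits are torsion-free.
(3) For the class of finite groups the limits contain all groups which are residually finite
`p`-groups for infinitely many primes `p`. -/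
theorem result (R : Type) [Ring R] :
    ((Countable TestGroup ∧ TorsionFree TestGroup) ∧
      List.TFAE
        [∀ (Γ : Type) [Group Γ], TorsionFree Γ → AllStablyFree (MonoidAlgebra R Γ),
          ∀ (r : ℕ) (S : Finset (FreeGroup (Fin r))), AllStablyFree (MonoidAlgebra R (TFQuotient r S)),
          AllStablyFree (MonoidAlgebra R TestGroup),
          FinitarySplitting R fun _ _ => True]) ∧
    (∀ C : ∀ (G : Type) [Group G], Prop,
      ((∀ (Γ : Type) [Group Γ], IsLimit C Γ → AllStablyFree (MonoidAlgebra R Γ)) ↔
        FinitarySplitting R C) ∧
        ∀ (Γ : Type) [Group Γ], IsLimit C Γ → TorsionFree Γ) ∧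
    (∀ (Γ : Type) [Group Γ],
      (∀ N : ℕ, ∃ p : ℕ, N < p ∧ p.Prime ∧ ∀ g : Γ, g ≠ 1 →
        ∃ (Q : Type) (_ : Group Q), Finite Q ∧ IsPGroup p Q ∧ ∃ f : Γ →* Q, f g ≠ 1) →
      IsLimit (fun G _ => Finite G) Γ) := by
  refine ⟨⟨⟨countable_testGroup, torsionFree_testGroup⟩, ?_⟩, fun C =>
    ⟨compactnessK C, fun Γ _ h => torsionFree_of_isLimit C Γ h⟩,
    fun Γ _ h => isLimit_finite Γ h⟩
  tfae_have 1 → 3 := fun h => h TestGroup torsionFree_testGroup
  tfae_have 3 → 2 := fun h r S => by
    obtain ⟨f, g, hgf⟩ := testGroup_retract r S
    exact free_of_retract f g hgf h
  tfae_have 2 → 1 := fun h Γ _ hΓ => free_of_tfQuotients h Γ hΓ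
  tfae_have 1 ↔ 4 := by
    rw [← compactnessK]
    exact ⟨fun h Γ _ hΓ => h Γ ((isLimit_all Γ).1 hΓ), fun h Γ _ hΓ => h Γ ((isLimit_all Γ).2 hΓ)⟩
  tfae_finish

end Pool.Agent.Results.MP_551055_al.TestGroups
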