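import Pool.Agent.U674.TI.Stab

/-!
# Projective modules over integral group rings as left ideals generated by trinomials

Let `P` be a finitely generated projective `ℤG`-module, `G` any group. After an extension of scalars to
the group ring of `G * F`, `F` a free group of finite rank, and after adding a finitely generated free
module, `P` is isomorphic to a left ideal generated by finitely many elements `1 + a + b`, where `a` and
`b` are elements of the group `G * F`. So the conjecture on the stable freeness of projective modules
over the integral group rings of torsion-free groups is equivalent to its case for the left ideals of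
this kind, and even to this case for one countable torsion-free group.

Proof. (1) Let `P ⊆ (ℤG)^n` be the row space of an idempotent matrix with rows `ρ_j`, and let
`N = (ℤG)^n / P ⊕ ℤG z`. The vectors `x` of `(ℤG)^n ⊕ ℤG z` whose last coordinate has an augmentation
congruent to `1` modulo `3` can be obtained from `z` and the `e_j + z` by the operation
`(x, y) ↦ -(g x + h y)`, `g, h ∈ G`. Adding them one by one as generators, each with its relation
`t + g x + h y = 0`, and the relations `t_j + z + z = 0` for `t_j = - 2 z - ρ_j`, one obtains a
presentation of `N` by finitely many generators `v ∈ V`, with images different from zero, and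
trinomial relations; its relation module `K ⊆ (ℤG)^V` is isomorphic to the direct sum of `P` and a free
module. (2) Let `y_v`, `v ∈ V`, be a basis of `F`. The map `∑ c_v e_v ↦ ∑ c_v y_v` is injective on the
extension of `K` to `G * F`, so that its image is a left ideal isomorphic to it: by the universal
property of the free product there is a representation of `G * F` by triangular matrices in which
`∑ c_v y_v`, `(c_v) ∈ K`, maps a certain vector to `(c_v)`. On the diagonal `G` acts trivially and
`y_v` maps `(a, b)` to `(b, m_v a)`, where `m_v ≡ 1` modulo `3` is the augmentation of the last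
coordinate of `v`, hence not zero.

The torsion-freeness of free products is from `Pool.Agent.Q32.DP.FREE`; the test group and stable
freeness in terms of matrices from `Pool.Agent.U181.TG` (`MP_551055_al.TestGroups`).
-/

set_option autoImplicit false

namespace Pool.Agent.Results.MP_551055_al.TrinomialIdeals

open Pool.Agent.U674.TI Pool.Agent.U181.TG

/-- the projective left ideals of `ℤΓ` which are generated by finitely many elements `1 + a + b`,
`a, b ∈ Γ`, are stably free -/
def TrinomialIdealsStablyFree (Γ : Type) [Group Γ] : Prop :=
  ∀ (r : ℕ) (a b : Fin r → Γ), Module.Projective (MonoidAlgebra ℤ Γ) (triIdeal a b) →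
    SF (MonoidAlgebra ℤ Γ) (triIdeal a b)

/-- The `ℤG`-module `P` is the row space of an idempotent matrix `E`, and for all sets `k` with at least
`m` elements the direct sum of the row space of `E` over `ℤ[G * F_k]` and the free module of rank `q` is
isomorphic to a left ideal of `ℤ[G * F_k]` generated by `r` trinomials `1 + a i + b i`. -/
def ByTrinomials (G : Type) [Group G] (P : Type) [AddCommGroup P] [Module (MonoidAlgebra ℤ G) P] :
    Prop :=
  ∃ (n : ℕ) (E : Matrix (Fin n) (Fin n) (MonoidAlgebra ℤ G)) (m q r : ℕ),
    E * E = E ∧ Nonempty (P ≃ₗ[MonoidAlgebra ℤ G] RowSp E) ∧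
    ∀ (k : Type) (j : Fin m → k), Function.Injective j → ∃ a b : Fin r → GF G k,
      Nonempty (↥(triIdeal a b) ≃ₗ[RR G k] (RowSp (E.map (io G k)) × (Fin q → RR G k)))

theorem countable_GF (G : Type) [Group G] [Countable G] : Countable (GF G ℕ) := by
  have h1 : Countable (FreeGroup ℕ) :=
    (Quot.mk_surjective (r := FreeGroup.Red.Step (α := ℕ))).countable
  have h2 : Countable (FreeMonoid (G ⊕ FreeGroup ℕ)) :=
    inferInstanceAs (Countable (List (G ⊕ FreeGroup ℕ)))
  exact (Monoid.Coprod.mk_surjective (M := G) (N := FreeGroup ℕ)).countable

theorem torsionFree_GF' (G : Type) [Group G] (k : Type) (hG : TorsionFree G) :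
    TorsionFree (GF G k) := by
  intro g m hm h
  refine torsionFree_GF (G := G) (k := k) (fun x hx => ?_) g
    (isOfFinOrder_iff_pow_eq_one.2 ⟨m, hm, h⟩)
  obtain ⟨i, hi, h1⟩ := isOfFinOrder_iff_pow_eq_one.1 hx
  exact hG x i hi h1

/-- (1) Let `G` be any group and `P` a finitely generated projective `ℤG`-module. There are an
idempotent matrix `E` over `ℤG` whose row space is isomorphic to `P`, and numbers `m`, `q`, `r`, such
that for every set `k` with at least `m` elements there are `a i`, `b i` (`i < r`) in the free product
`G * F_k` of `G` and the free group with basis `k` for which the left ideal of `ℤ[G * F_k]` generated by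
the elements `1 + a i + b i` is isomorphic to the direct sum of the row space of `E` over `ℤ[G * F_k]`
(the extension of scalars of `P`) and the free module of rank `q`.
(2) `G₀ = TestGroup * F_ℕ` is a countable torsion-free group, and the following are equivalent: all
finitely generated projective `ℤΓ`-modules are stably free, for all torsion-free groups `Γ`; the
projective left ideals of `ℤΓ` generated by finitely many elements `1 + a + b`, `a, b ∈ Γ`, are stably
free, for all torsion-free groups `Γ`; the same for the group `G₀`. -/
theorem result :
    (∀ (G : Type) [Group G] (P : Type) [AddCommGroup P] [Module (MonoidAlgebra ℤ G) P],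
      Module.Finite (MonoidAlgebra ℤ G) P → Module.Projective (MonoidAlgebra ℤ G) P →
      ByTrinomials G P) ∧
    (Countable (GF TestGroup ℕ) ∧ TorsionFree (GF TestGroup ℕ) ∧
      List.TFAE
        [∀ (Γ : Type) [Group Γ], TorsionFree Γ → AllStablyFree (MonoidAlgebra ℤ Γ),
          ∀ (Γ : Type) [Group Γ], TorsionFree Γ → TrinomialIdealsStablyFree Γ,
          TrinomialIdealsStablyFree (GF TestGroup ℕ)]) := by
  refine ⟨fun G _ P _ _ h1 h2 => ?_, ?_, ?_, ?_⟩
  · obtain ⟨n, E, m, q, r, hE, he, hm⟩ := main2 P h1 h2
    refine ⟨n, E, m, q, r, hE, he, fun k j hj => ?_⟩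
    obtain ⟨a, b, h, _⟩ := hm k j hj
    exact ⟨a, b, h⟩
  · have := countable_testGroup
    exact countable_GF TestGroup
  · exact torsionFree_GF' _ _ torsionFree_testGroup
  · tfae_have 1 → 2 := fun h Γ _ hΓ r a b hp => by
      refine h Γ hΓ _ ?_ hp
      rw [Module.Finite.iff_fg]
      exact ⟨(Set.finite_range _).toFinset, by rw [Set.Finite.coe_toFinset]; rfl⟩
    tfae_have 2 → 3 := fun h => h _ (torsionFree_GF' _ _ torsionFree_testGroup)
    tfae_have 3 → 1 := fun h Γ _ hΓ => by
      have h1 : AllStablyFree (MonoidAlgebra ℤ TestGroup) := by
        intro P _ _ hf hp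
        obtain ⟨n, E, m, q, r, _, _, hm⟩ := main2 P hf hp
        obtain ⟨a, b, _, hpr, hiff⟩ := hm ℕ (fun i => (i : ℕ)) Fin.val_injective
        exact hiff.2 (h r a b hpr)
      refine free_of_tfQuotients (fun r S => ?_) Γ hΓ
      obtain ⟨f, g, hgf⟩ := testGroup_retract r S
      exact free_of_retract f g hgf h1
    tfae_finish

end Pool.Agent.Results.MP_551055_al.TrinomialIdeals
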